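import Pool.Agent.ZES.StmtsB

/-!
# Squad ZES, row BNW
-/

set_option autoImplicit false

namespace Pool.Agent.ZES.H31

open scoped BigOperators InnerProductSpace
open Pool.Agent.ZES

theorem bnw (aln : AlnStmt) (cpt : CptStmt) : BnwStmt := by
  intro V _ _ _ L χ hL n F hF
  obtain ⟨hFd, hFp⟩ := hF
  obtain ⟨R, hR, hcpt⟩ := cpt V L ⊤ (by
    intro w _
    have e : {u : V | u ∈ L ∧ u ∈ (⊤ : Submodule ℂ V)} = (L : Set V) := by
      ext u
      simp
    rw [e, hL.span]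
    trivial)
  haveI : ProperSpace V := FiniteDimensional.proper ℂ V
  obtain ⟨C, hC⟩ := (isCompact_closedBall (0 : V) R).exists_bound_of_continuousOn
    (hFd.continuous.continuousOn)
  refine ⟨max C 0, le_max_right _ _, fun x => ?_⟩
  obtain ⟨ω, hω, -, hxω⟩ := hcpt x trivial
  have h1 := hFp ω hω (x - ω)
  rw [sub_add_cancel] at h1
  have hχ : ‖χ ω‖ = 1 := by
    have h2 := hL.sq ω hω
    have h3 : ‖χ ω‖ ^ 2 = 1 := by rw [← norm_pow, h2, norm_one]
    exact (pow_eq_one_iff_of_nonneg (norm_nonneg _) two_ne_zero).1 h3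
  have h4 := (aln V (Real.pi * n) 0 ω 0 (x - ω) 0).1
  rw [sub_add_cancel] at h4
  have h5 : ‖F (x - ω)‖ ≤ max C 0 :=
    (hC (x - ω) (by rw [mem_closedBall_zero_iff]; exact hxω)).trans (le_max_left _ _)
  have h6 : Real.exp (Real.pi * n / 2 * (‖x‖ ^ 2 - ‖x - ω‖ ^ 2)) ≤
      Real.exp (Real.pi * n / 2 * ‖x‖ ^ 2) := by
    apply Real.exp_le_exp.2
    refine mul_le_mul_of_nonneg_left ?_ (by positivity)
    have := sq_nonneg ‖x - ω‖
    linarith
  rw [h1, norm_mul, norm_mul, norm_pow, hχ, one_pow, one_mul, h4, mul_comm]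
  exact mul_le_mul h5 h6 (Real.exp_pos _).le (le_max_right _ _)

end Pool.Agent.ZES.H31
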